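import Mathlib
import Pool.Agent.R721.IntMean

/-!
# The relation algebra `A_5([i,i,i+1])` has no group representation over `ℤ`

This settles Q2 of the problem (in the negative).
-/

namespace Pool.Agent.Results.MP_ef816a_al.NoRepresentationOverInt

/-- The forbidden diversity cycles: the triples of (indices of) colours whose multiset is
`{a_i, a_i, a_{i+1}}` for some `i ∈ ℤ/5`. -/
def Forbidden (a b c : ZMod 5) : Prop :=
  ∃ i : ZMod 5, ({a, b, c} : Multiset (ZMod 5)) = {i, i, i + 1}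

/-- `col k u v` says that the edge `uv` of the complete graph on `U` has colour `a_k`.
`IsRepresentation col` says that `col` is a colouring of the edges of the complete graph on `U`
and that it is a representation of `A_5([i,i,i+1])`. -/
structure IsRepresentation {U : Type*} (col : ZMod 5 → U → U → Prop) : Prop where
  /-- the base set has at least two points -/
  nontrivial : Nontrivial U
  /-- only pairs of distinct points are coloured -/
  irrefl : ∀ k u v, col k u v → u ≠ v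
  /-- the colour of `uv` is the colour of `vu` -/
  symm : ∀ k u v, col k u v → col k v u
  /-- every edge has exactly one colour -/
  unique_colour : ∀ u v, u ≠ v → ∃! k, col k u v
  /-- no triangle has a forbidden multiset of colours -/
  no_forbidden : ∀ u v w a b c, col a u v → col b v w → col c u w → ¬ Forbidden a b c
  /-- every cycle that is not forbidden is realised over every edge -/
  mandatory : ∀ u v k s t, col k u v → ¬ Forbidden k s t → ∃ w, col s u w ∧ col t w v

/-- `S` is a group representation of `A_5([i,i,i+1])` over the abelian group `G`. -/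
structure IsGroupRepresentation {G : Type*} [AddCommGroup G] (S : ZMod 5 → Set G) : Prop where
  /-- the sets `S_k` lie in `G ∖ {0}` -/
  zero_notMem : ∀ k, (0 : G) ∉ S k
  /-- every nonzero element lies in exactly one of them -/
  partition : ∀ g : G, g ≠ 0 → ∃! k, g ∈ S k
  /-- `S_k = - S_k` -/
  neg_mem : ∀ k g, g ∈ S k ↔ -g ∈ S k
  /-- colouring `uv` by the `a_k` with `v - u ∈ S_k` is a representation -/
  representation : IsRepresentation (fun (k : ZMod 5) (u v : G) => v - u ∈ S k)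

open R721.IntMean

instance (a b c : ZMod 5) : Decidable (Forbidden a b c) := by
  unfold Forbidden; infer_instance

lemma forb_iiS : ∀ i : ZMod 5, Forbidden i i (i + 1) := fun i => ⟨i, rfl⟩

lemma nf1 : ∀ i j : ZMod 5, j ≠ i + 1 → ¬ Forbidden j i i := by decide
lemma nf2 : ∀ i : ZMod 5, ¬ Forbidden (i + 1) (i + 2) (i + 2) := by decide
lemma ne12 : ∀ i : ZMod 5, i + 2 ≠ i + 1 := by decide
lemma ne01 : ∀ i : ZMod 5, i ≠ i + 1 := by decide

/-- among three colours two are cyclically adjacent -/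
lemma adjacent_of_card : ∀ P : Finset (ZMod 5), 3 ≤ P.card → ∃ i, i ∈ P ∧ i + 1 ∈ P := by decide

lemma m_zero_singleton : R721.IntMean.m ({0} : Set ℤ) = 0 := by
  by_contra hne
  have hpos : 0 < R721.IntMean.m ({0} : Set ℤ) :=
    lt_of_le_of_ne (R721.IntMean.m_nonneg _) (Ne.symm hne)
  have := R721.IntMean.recurrence (ι := Unit) (fun _ => ({0} : Set ℤ)) (fun _ => hpos) Set.univ
    Set.infinite_univ
  obtain ⟨e, _, e', _, hee, hx⟩ := this
  obtain ⟨x, hx1, hx2⟩ := hx ()
  simp only [Set.mem_singleton_iff] at hx1 hx2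
  apply hee
  rw [hx1] at hx2
  linarith

section Main

variable {S : ZMod 5 → Set ℤ} (hS : IsGroupRepresentation S)
include hS

lemma neg' {k : ZMod 5} {x : ℤ} (h : x ∈ S k) : -x ∈ S k := (hS.neg_mem k x).mp h

lemma ne_zero' {k : ZMod 5} {x : ℤ} (h : x ∈ S k) : x ≠ 0 := by
  rintro rfl; exact hS.zero_notMem k h

lemma colour_eq {j k : ZMod 5} {x : ℤ} (hj : x ∈ S j) (hk : x ∈ S k) : j = k :=
  (hS.partition x (ne_zero' hS hj)).unique hj hk

/-- `S_i + S_i` misses `S_{i+1}` -/
lemma sum_avoid {i : ZMod 5} {x y : ℤ} (hx : x ∈ S i) (hy : y ∈ S i) : x + y ∉ S (i + 1) := by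
  intro h
  refine hS.representation.no_forbidden 0 x (x + y) i i (i + 1) ?_ ?_ ?_ (forb_iiS i)
  · simpa using hx
  · simpa using hy
  · simpa using h

/-- two elements of `S_i` never differ by an element of `S_{i+1}` -/
lemma diff_avoid {i : ZMod 5} {x d : ℤ} (hd : d ∈ S (i + 1)) (hx : x ∈ S i) : x + d ∉ S i := by
  intro h
  apply sum_avoid hS h (neg' hS hx)
  have : x + d + -x = d := by ring
  rw [this]; exact hd

/-- allowed cycles are realised -/
lemma split {k s t : ZMod 5} (hk : ¬ Forbidden k s t) {x : ℤ} (hx : x ∈ S k) :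
    ∃ y ∈ S s, x - y ∈ S t := by
  obtain ⟨w, hw1, hw2⟩ := hS.representation.mandatory 0 x k s t (by simpa using hx) hk
  exact ⟨w, by simpa using hw1, hw2⟩

lemma every_subset_of {i : ZMod 5} (P : ℤ → Prop) (hadd : ∀ x y, P x → P y → P (x + y))
    (hi : ∀ x ∈ S i, P x) : ∀ x : ℤ, x ≠ 0 → P x := by
  have h1 : ∀ j, j ≠ i + 1 → ∀ x ∈ S j, P x := by
    intro j hj x hx
    obtain ⟨y, hy, hxy⟩ := split hS (nf1 i j hj) hx
    have := hadd _ _ (hi y hy) (hi _ hxy)
    simpa using this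
  have h2 : ∀ x ∈ S (i + 1), P x := by
    intro x hx
    obtain ⟨y, hy, hxy⟩ := split hS (nf2 i) hx
    have := hadd _ _ (h1 _ (ne12 i) y hy) (h1 _ (ne12 i) _ hxy)
    simpa using this
  intro x hx
  obtain ⟨k, hk, _⟩ := hS.partition x hx
  by_cases hki : k = i + 1
  · subst hki; exact h2 x hk
  · exact h1 k hki x hk

/-- no colour class consists of multiples of `3` only -/
lemma exists_not_dvd (i : ZMod 5) : ∃ n ∈ S i, ¬ (3:ℤ) ∣ n := by
  by_contra h
  push Not at h
  have := every_subset_of hS (i := i) (fun x => (3:ℤ) ∣ x) (fun x y hx hy => dvd_add hx hy) h 1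
    one_ne_zero
  norm_num at this

lemma infinite_class (j : ZMod 5) : (S j).Infinite := by
  intro hfin
  have hsub : ∀ k, k ≠ j + 1 → (S k).Finite := by
    intro k hk
    refine ((hfin.prod hfin).image (fun p : ℤ × ℤ => p.1 + p.2)).subset ?_
    intro x hx
    obtain ⟨y, hy, hxy⟩ := split hS (nf1 j k hk) hx
    exact ⟨(y, x - y), ⟨hy, hxy⟩, by simp⟩
  have hsub2 : (S (j + 1)).Finite := by
    have h2 := hsub (j + 2) (ne12 j)
    refine ((h2.prod h2).image (fun p : ℤ × ℤ => p.1 + p.2)).subset ?_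
    intro x hx
    obtain ⟨y, hy, hxy⟩ := split hS (nf2 j) hx
    exact ⟨(y, x - y), ⟨hy, hxy⟩, by simp⟩
  have hall : ∀ k, (S k).Finite := by
    intro k
    by_cases hk : k = j + 1
    · subst hk; exact hsub2
    · exact hsub k hk
  have hU : (⋃ k, S k).Finite := Set.finite_iUnion hall
  have : (Set.univ : Set ℤ).Finite := by
    refine (hU.union (Set.finite_singleton (0:ℤ))).subset ?_
    intro x _
    by_cases hx : x = 0
    · right; exact hx
    · left
      obtain ⟨k, hk, _⟩ := hS.partition x hx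
      exact Set.mem_iUnion.mpr ⟨k, hk⟩
  exact Set.infinite_univ this

/-- a monochromatic triangle through any edge -/
lemma exists_triangle {i : ZMod 5} {s : ℤ} (hs : s ∈ S i) : ∃ s' ∈ S i, s - s' ∈ S i := by
  have h : ¬ Forbidden i i i := nf1 i i (ne01 i)
  exact split hS h hs

/-- the points that are not covered by `S_i`, `S_i + s`, `S_i + s'` -/
def bad (S : ZMod 5 → Set ℤ) (i : ZMod 5) (s s' : ℤ) : Set ℤ :=
  {x | x ∉ S i ∧ x - s ∉ S i ∧ x - s' ∉ S i}

lemma m_bad {i : ZMod 5} {s s' : ℤ} (hs : s ∈ S (i + 1)) (hs' : s' ∈ S (i + 1))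
    (hss : s - s' ∈ S (i + 1)) : m (bad S i s s') = 1 - 3 * m (S i) := by
  have h1 : Disjoint (S i) {x | x + -s ∈ S i} := by
    rw [Set.disjoint_left]
    intro x hx hx'
    exact diff_avoid hS (neg' hS hs) hx hx'
  have h2 : Disjoint (S i ∪ {x | x + -s ∈ S i}) {x | x + -s' ∈ S i} := by
    rw [Set.disjoint_left]
    rintro x (hx | hx) hx'
    · exact diff_avoid hS (neg' hS hs') hx hx'
    · have hx1 : x + -s ∈ S i := hx
      have hx2 : x + -s' ∈ S i := hx'
      apply diff_avoid hS hss hx1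
      have : x + -s + (s - s') = x + -s' := by ring
      rw [this]; exact hx2
  have h3 : bad S i s s' = ((S i ∪ {x | x + -s ∈ S i}) ∪ {x | x + -s' ∈ S i})ᶜ := by
    ext x
    simp only [bad, Set.mem_compl_iff, Set.mem_union, Set.mem_ofPred_eq, not_or, sub_eq_add_neg]
    tauto
  rw [h3, m_compl, m_union h2, m_union h1, m_shift, m_shift]
  ring

lemma m_le_third (i : ZMod 5) : m (S i) ≤ 1 / 3 := by
  obtain ⟨s, hs⟩ := (infinite_class hS (i + 1)).nonempty
  obtain ⟨s', hs', hss⟩ := exists_triangle hS hs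
  have := m_bad hS hs hs' hss
  have h0 := m_nonneg (bad S i s s')
  linarith

lemma m_sum : ∑ k, m (S k) = 1 := by
  classical
  have key : ∀ s : Finset (ZMod 5), m (⋃ k ∈ s, S k) = ∑ k ∈ s, m (S k) := by
    intro s
    induction s using Finset.induction_on with
    | empty => simp [m_empty]
    | insert a s ha ih =>
      rw [Finset.sum_insert ha, Finset.set_biUnion_insert, m_union, ih]
      rw [Set.disjoint_left]
      intro x hx hx'
      rw [Set.mem_iUnion₂] at hx'
      obtain ⟨k, hk, hxk⟩ := hx'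
      apply ha
      rw [colour_eq hS hx hxk]
      exact hk
  have h1 : (Set.univ : Set ℤ) = (⋃ k ∈ (Finset.univ : Finset (ZMod 5)), S k) ∪ {0} := by
    ext x
    simp only [Set.mem_univ, true_iff, Set.mem_union, Set.mem_iUnion₂, Finset.mem_univ,
      exists_prop, true_and, Set.mem_singleton_iff]
    by_cases hx : x = 0
    · right; exact hx
    · left
      obtain ⟨k, hk, _⟩ := hS.partition x hx
      exact ⟨k, hk⟩
  have h2 : Disjoint (⋃ k ∈ (Finset.univ : Finset (ZMod 5)), S k) ({0} : Set ℤ) := by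
    rw [Set.disjoint_left]
    intro x hx hx'
    rw [Set.mem_iUnion₂] at hx
    obtain ⟨k, _, hxk⟩ := hx
    exact ne_zero' hS hxk hx'
  have h3 := m_univ
  rw [h1, m_union h2, key, m_zero_singleton, add_zero] at h3
  exact h3

/-- at least two colour classes are null -/
lemma some_null (j : ZMod 5) : ∃ a, a ≠ j ∧ m (S a) = 0 := by
  classical
  by_contra hcon
  push Not at hcon
  have hpos : ∀ a : {a : ZMod 5 // a ≠ j}, 0 < m (S a.1) := fun a =>
    lt_of_le_of_ne (m_nonneg _) (Ne.symm (hcon a.1 a.2))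
  obtain ⟨e, he, e', he', hee, hx⟩ := recurrence (fun a : {a : ZMod 5 // a ≠ j} => S a.1) hpos
    (S j) (infinite_class hS j)
  have hd : e - e' ≠ 0 := sub_ne_zero.mpr hee
  obtain ⟨k, hk, _⟩ := hS.partition (e - e') hd
  by_cases hkj : k = j + 1
  · subst hkj
    apply sum_avoid hS he (neg' hS he')
    rw [← sub_eq_add_neg]; exact hk
  · have hk1 : k - 1 ≠ j := fun h => hkj (by rw [← h]; ring)
    obtain ⟨x, hx1, hx2⟩ := hx ⟨k - 1, hk1⟩
    have hk' : e - e' ∈ S (k - 1 + 1) := by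
      have : k - 1 + 1 = k := by ring
      rw [this]; exact hk
    exact diff_avoid hS hk' hx1 hx2

/-- two cyclically adjacent colours have mean `1/3` -/
lemma exists_adjacent : ∃ i, m (S i) = 1 / 3 ∧ m (S (i + 1)) = 1 / 3 := by
  classical
  obtain ⟨a, _, ha⟩ := some_null hS 0
  obtain ⟨b, hba, hb⟩ := some_null hS a
  have hsum := m_sum hS
  set P : Finset (ZMod 5) := (Finset.univ.erase a).erase b with hP
  have hbm : b ∈ Finset.univ.erase a := by simp [hba]
  have hPc : P.card = 3 := by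
    rw [hP, Finset.card_erase_of_mem hbm, Finset.card_erase_of_mem (Finset.mem_univ a)]
    simp [ZMod.card]
  have hsumP : ∑ k ∈ P, m (S k) = 1 := by
    have h1 := Finset.add_sum_erase Finset.univ (fun k => m (S k)) (Finset.mem_univ a)
    have h2 := Finset.add_sum_erase (Finset.univ.erase a) (fun k => m (S k)) hbm
    simp only [ha, hb, zero_add] at h1 h2
    rw [hP, h2, h1, hsum]
  have hall : ∀ k ∈ P, m (S k) = 1 / 3 := by
    intro k hk
    have h1 := Finset.add_sum_erase P (fun k => m (S k)) hk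
    have h2 : ∑ l ∈ P.erase k, m (S l) ≤ ∑ l ∈ P.erase k, (1/3 : ℝ) :=
      Finset.sum_le_sum (fun l _ => m_le_third hS l)
    rw [Finset.sum_const, Finset.card_erase_of_mem hk, hPc] at h2
    have h3 := m_le_third hS k
    norm_num at h2
    linarith
  obtain ⟨i, hi, hi1⟩ := adjacent_of_card P hPc.ge
  exact ⟨i, hall i hi, hall _ hi1⟩

/-- `1` is a sum of elements of `S_{i+1}` -/
lemma one_eq_sum (j : ZMod 5) : ∃ l : List ℤ, (∀ b ∈ l, b ∈ S j) ∧ l.sum = 1 := by
  refine every_subset_of hS (i := j) (fun x => ∃ l : List ℤ, (∀ b ∈ l, b ∈ S j) ∧ l.sum = x)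
    ?_ ?_ 1 one_ne_zero
  · rintro x y ⟨l, hl, rfl⟩ ⟨l', hl', rfl⟩
    refine ⟨l ++ l', ?_, by simp⟩
    intro b hb
    rcases List.mem_append.mp hb with h | h
    · exact hl b h
    · exact hl' b h
  · intro x hx
    exact ⟨[x], by simpa using hx, by simp⟩

end Main

/-! ### The structure of a colour class on a long interval -/

/-- the two basic shifts coming from one triangle -/
lemma shift_of_cover {p : ℤ → Prop} {s s' x0 L : ℤ}
    (hd1 : ∀ x, p x → ¬ p (x + s)) (hd2 : ∀ x, p x → ¬ p (x + s'))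
    (hd3 : ∀ x, p x → ¬ p (x + (s - s')))
    (hc1 : ∀ x, |x - x0| ≤ L → p x ∨ p (x - s) ∨ p (x - s'))
    (hc2 : ∀ x, |x - x0| ≤ L → p x ∨ p (x + s) ∨ p (x + s'))
    {x : ℤ} (hx : |x - x0| + |s| + |s'| ≤ L) : p x ↔ p (x + 2 * s - s') := by
  -- `y = x + s`
  have hx1 : |x + s - x0| ≤ L := by
    have := abs_add_le (x - x0) s
    have e : x + s - x0 = x - x0 + s := by ring
    rw [e]; have := abs_nonneg s'; omega
  have hx2 : |x + s - s' - x0| ≤ L := by
    have h1 := abs_add_le (x - x0) (s - s')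
    have h2 := abs_sub s s'
    have e : x + s - s' - x0 = x - x0 + (s - s') := by ring
    rw [e]; omega
  have c1 := hc1 (x + s) hx1
  have c2 := hc2 (x + s - s') hx2
  have e1 : x + s - s = x := by ring
  have e2 : x + s - s' + s = x + 2 * s - s' := by ring
  have e3 : x + s - s' + s' = x + s := by ring
  rw [e1] at c1
  rw [e2, e3] at c2
  -- exclusions
  have f1 : p x → ¬ p (x + s) := hd1 x
  have f2 : p (x + s - s') → ¬ p (x + s) := by
    intro h h'
    have := hd2 _ h
    rw [e3] at this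
    exact this h'
  have f3 : p x → ¬ p (x + s - s') := by
    intro h h'
    apply hd3 x h
    have : x + (s - s') = x + s - s' := by ring
    rw [this]; exact h'
  have f4 : p (x + s - s') → ¬ p (x + 2 * s - s') := by
    intro h h'
    have := hd1 _ h
    rw [e2] at this
    exact this h'
  have f5 : p (x + s) → ¬ p (x + 2 * s - s') := by
    intro h h'
    apply hd3 _ h
    have : x + s + (s - s') = x + 2 * s - s' := by ring
    rw [this]; exact h'
  tauto

/-- shift by `3 s` -/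
lemma shift_three {p : ℤ → Prop} {D : Set ℤ} (hDn : ∀ d ∈ D, -d ∈ D)
    (hD : ∀ d ∈ D, ∀ x, p x → ¬ p (x + d)) {s s' x0 L R : ℤ}
    (hs : s ∈ D) (hs' : s' ∈ D) (hss : s - s' ∈ D) (hR : |s| ≤ R) (hR' : |s'| ≤ R)
    (hc1 : ∀ x, |x - x0| ≤ L → p x ∨ p (x - s) ∨ p (x - s'))
    (hc2 : ∀ x, |x - x0| ≤ L → p x ∨ p (x + s) ∨ p (x + s'))
    {x : ℤ} (hx : |x - x0| + 20 * R ≤ L) : p x ↔ p (x + 3 * s) := by
  have hss' : s' - s ∈ D := by
    have := hDn _ hss
    rwa [neg_sub] at this
  have hR0 : 0 ≤ R := (abs_nonneg s).trans hR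
  have A1 : ∀ x, |x - x0| + 2 * R ≤ L → (p x ↔ p (x + 2 * s - s')) := fun x hx =>
    shift_of_cover (hD s hs) (hD s' hs') (hD _ hss) hc1 hc2 (by omega)
  have A2 : ∀ x, |x - x0| + 2 * R ≤ L → (p x ↔ p (x + 2 * s' - s)) := fun x hx =>
    shift_of_cover (hD s' hs') (hD s hs) (hD _ hss')
      (fun y hy => by have := hc1 y hy; tauto) (fun y hy => by have := hc2 y hy; tauto) (by omega)
  have b1 : |x + 2 * s - s' - x0| ≤ |x - x0| + 3 * R := by
    have h1 := abs_add_le (x - x0) (2 * s - s')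
    have h2 := abs_sub (2 * s) s'
    have h3 : |2 * s| = 2 * |s| := by rw [abs_mul]; norm_num
    have e : x + 2 * s - s' - x0 = x - x0 + (2 * s - s') := by ring
    rw [e]; omega
  have b2 : |x + 2 * s - s' + 2 * s - s' - x0| ≤ |x + 2 * s - s' - x0| + 3 * R := by
    have h1 := abs_add_le (x + 2 * s - s' - x0) (2 * s - s')
    have h2 := abs_sub (2 * s) s'
    have h3 : |2 * s| = 2 * |s| := by rw [abs_mul]; norm_num
    have e : x + 2 * s - s' + 2 * s - s' - x0 = x + 2 * s - s' - x0 + (2 * s - s') := by ring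
    rw [e]; omega
  have s1 := A1 x (by omega)
  have s2 := A1 (x + 2 * s - s') (by omega)
  have s3 := A2 (x + 2 * s - s' + 2 * s - s') (by omega)
  have e : x + 2 * s - s' + 2 * s - s' + 2 * s' - s = x + 3 * s := by ring
  rw [e] at s3
  rw [s1, s2, s3]

lemma shift_list {p : ℤ → Prop} {D : Set ℤ} (hDn : ∀ d ∈ D, -d ∈ D)
    (hD : ∀ d ∈ D, ∀ x, p x → ¬ p (x + d)) (w : ℤ → ℤ) {x0 L R : ℤ}
    (l : List ℤ) (hl : ∀ s ∈ l, s ∈ D ∧ w s ∈ D ∧ s - w s ∈ D ∧ |s| ≤ R ∧ |w s| ≤ R ∧
      (∀ x, |x - x0| ≤ L → p x ∨ p (x - s) ∨ p (x - w s)) ∧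
      (∀ x, |x - x0| ≤ L → p x ∨ p (x + s) ∨ p (x + w s))) :
    ∀ x, |x - x0| + 20 * R + 3 * R * l.length ≤ L → (p x ↔ p (x + 3 * l.sum)) := by
  induction l with
  | nil => intro x _; simp
  | cons s t ih =>
    intro x hx
    obtain ⟨h1, h2, h3, h4, h5, h6, h7⟩ := hl s (by simp)
    have hR0 : 0 ≤ R := (abs_nonneg s).trans h4
    have hlen : ((s :: t).length : ℤ) = t.length + 1 := by simp
    rw [hlen] at hx
    have hpos : 0 ≤ 3 * R * (t.length : ℤ) := by positivity
    have hx' : |x - x0| + 20 * R + 3 * R * t.length + 3 * R ≤ L := by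
      have e : 3 * R * ((t.length : ℤ) + 1) = 3 * R * t.length + 3 * R := by ring
      rw [e] at hx; omega
    have st := shift_three hDn hD h1 h2 h3 h4 h5 h6 h7 (x := x) (by omega)
    have hb : |x + 3 * s - x0| ≤ |x - x0| + 3 * R := by
      have g1 := abs_add_le (x - x0) (3 * s)
      have g3 : |3 * s| = 3 * |s| := by rw [abs_mul]; norm_num
      have e : x + 3 * s - x0 = x - x0 + 3 * s := by ring
      rw [e]; omega
    have ih' := ih (fun s' hs' => hl s' (by simp [hs'])) (x + 3 * s) (by omega)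
    rw [st, ih']
    have e : x + 3 * s + 3 * t.sum = x + 3 * (s :: t).sum := by
      rw [List.sum_cons]; ring
    rw [e]

lemma periodic_aux {p : ℤ → Prop} {x0 L : ℤ}
    (h : ∀ x, |x - x0| ≤ L → (p x ↔ p (x + 3))) (k : ℕ) :
    ∀ x, |x - x0| ≤ L → |x + 3 * k - x0| ≤ L → (p x ↔ p (x + 3 * k)) := by
  induction k with
  | zero => intro x _ _; simp
  | succ k ih =>
    intro x hx hx'
    have hmid : |x + 3 - x0| ≤ L := by
      rw [abs_le] at hx hx' ⊢
      push_cast at hx'
      constructor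
      · omega
      · omega
    have e : x + 3 * ((k + 1 : ℕ) : ℤ) = x + 3 + 3 * k := by push_cast; ring
    rw [e] at hx' ⊢
    rw [h x hx]
    exact ih (x + 3) hmid hx'

lemma periodic {p : ℤ → Prop} {x0 L : ℤ}
    (h : ∀ x, |x - x0| ≤ L → (p x ↔ p (x + 3))) {x y : ℤ} (hx : |x - x0| ≤ L)
    (hy : |y - x0| ≤ L) (hxy : (3:ℤ) ∣ y - x) : p x ↔ p y := by
  rcases le_total x y with hle | hle
  · obtain ⟨k, hk⟩ := hxy
    obtain ⟨k', rfl⟩ := Int.eq_ofNat_of_zero_le (show 0 ≤ k by omega)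
    have e : y = x + 3 * (k' : ℤ) := by omega
    rw [e] at hy ⊢
    exact periodic_aux h k' x hx hy
  · obtain ⟨k, hk⟩ := hxy
    obtain ⟨k', hk'⟩ := Int.eq_ofNat_of_zero_le (show 0 ≤ -k by omega)
    have e : x = y + 3 * (k' : ℤ) := by omega
    rw [e] at hx ⊢
    exact (periodic_aux h k' y hy hx).symm

/-- On a long interval without bad points a colour class of mean `1/3` is one residue class
modulo `3`. -/
lemma residue_class {p : ℤ → Prop} {D : Set ℤ} (hDn : ∀ d ∈ D, -d ∈ D)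
    (hD : ∀ d ∈ D, ∀ x, p x → ¬ p (x + d)) (w : ℤ → ℤ) {x0 L L' R : ℤ} (hR : 0 ≤ R)
    (l : List ℤ) (hsum : l.sum = 1) (hl : ∀ s ∈ l, s ∈ D ∧ w s ∈ D ∧ s - w s ∈ D ∧ |s| ≤ R ∧
      |w s| ≤ R ∧
      (∀ x, |x - x0| ≤ L → p x ∨ p (x - s) ∨ p (x - w s)) ∧
      (∀ x, |x - x0| ≤ L → p x ∨ p (x + s) ∨ p (x + w s)))
    (hL' : 0 ≤ L') (hLL : L' + 40 * R + 3 * R * l.length + 40 ≤ L) :
    (∀ x y, |x - x0| ≤ L' → |y - x0| ≤ L' → (3:ℤ) ∣ y - x → (p x ↔ p y)) ∧
    (p x0 ∨ p (x0 + 1) ∨ p (x0 + 2)) := by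
  have hlen0 : 0 ≤ 3 * R * (l.length : ℤ) := by positivity
  have hper : ∀ x, |x - x0| ≤ L' + 20 * R + 40 → (p x ↔ p (x + 3)) := by
    intro x hx
    have := shift_list hDn hD w l hl x (by omega)
    rw [hsum] at this
    simpa using this
  have hP : ∀ x y, |x - x0| ≤ L' + 20 * R + 40 → |y - x0| ≤ L' + 20 * R + 40 →
      (3:ℤ) ∣ y - x → (p x ↔ p y) := fun x y hx hy hxy => periodic hper hx hy hxy
  refine ⟨fun x y hx hy hxy => hP x y (by omega) (by omega) hxy, ?_⟩
  -- the list is not empty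
  obtain ⟨s, hs⟩ : ∃ s, s ∈ l := by
    cases l with
    | nil => simp at hsum
    | cons a t => exact ⟨a, by simp⟩
  obtain ⟨h1, h2, h3, h4, h5, h6, h7⟩ := hl s hs
  -- cover at `x0`
  have c := h6 x0 (by simp; omega)
  have hs4 := abs_le.mp h4
  have hs5 := abs_le.mp h5
  have small : ∀ y, -R ≤ y → y ≤ R + 2 → |x0 + y - x0| ≤ L' + 20 * R + 40 := by
    intro y hy1 hy2
    rw [abs_le]; constructor <;> omega
  have tonear : ∀ y, -R ≤ y → y ≤ R + 2 → p (x0 + y) → (p x0 ∨ p (x0 + 1) ∨ p (x0 + 2)) := by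
    intro y hy1 hy2 hpy
    have hmod : y % 3 = 0 ∨ y % 3 = 1 ∨ y % 3 = 2 := by omega
    rcases hmod with h | h | h
    · left
      have := (hP (x0 + y) (x0 + 0) (small y hy1 hy2) (small 0 (by omega) (by omega))
        (by omega)).mp hpy
      simpa using this
    · right; left
      exact (hP (x0 + y) (x0 + 1) (small y hy1 hy2) (small 1 (by omega) (by omega))
        (by omega)).mp hpy
    · right; right
      exact (hP (x0 + y) (x0 + 2) (small y hy1 hy2) (small 2 (by omega) (by omega))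
        (by omega)).mp hpy
  rcases c with c | c | c
  · left; exact c
  · exact tonear (-s) (by omega) (by omega) (by rw [← sub_eq_add_neg]; exact c)
  · exact tonear (-(w s)) (by omega) (by omega) (by rw [← sub_eq_add_neg]; exact c)

section Final

variable {S : ZMod 5 → Set ℤ} (hS : IsGroupRepresentation S)
include hS

/-- The data on one colour `i` of mean `1/3`: a null set of bad points outside of which
long intervals look like one residue class modulo `3`. -/
lemma local_structure (i : ZMod 5) (hi : m (S i) = 1 / 3) :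
    ∃ (B : Set ℤ) (K : ℤ), 0 ≤ K ∧ m B = 0 ∧ ∀ x0 L' : ℤ, 0 ≤ L' →
      (∀ x, |x - x0| ≤ L' + K → x ∉ B) →
      (∀ x y, |x - x0| ≤ L' → |y - x0| ≤ L' → (3:ℤ) ∣ y - x → (x ∈ S i ↔ y ∈ S i)) ∧
      (x0 ∈ S i ∨ x0 + 1 ∈ S i ∨ x0 + 2 ∈ S i) := by
  classical
  obtain ⟨l, hl, hsum⟩ := one_eq_sum hS (i + 1)
  have hex : ∀ s : ℤ, ∃ s' : ℤ, s ∈ S (i + 1) → s' ∈ S (i + 1) ∧ s - s' ∈ S (i + 1) := by
    intro s
    by_cases hs : s ∈ S (i + 1)
    · obtain ⟨s', h1, h2⟩ := exists_triangle hS hs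
      exact ⟨s', fun _ => ⟨h1, h2⟩⟩
    · exact ⟨0, fun h => (hs h).elim⟩
  choose w hw using hex
  obtain ⟨R, hR⟩ : ∃ R : ℕ, ∀ s ∈ l.toFinset, s.natAbs ≤ R ∧ (w s).natAbs ≤ R := by
    refine ⟨l.toFinset.sup (fun s => s.natAbs + (w s).natAbs), fun s hs => ?_⟩
    have := Finset.le_sup (f := fun s : ℤ => s.natAbs + (w s).natAbs) hs
    constructor <;> omega
  let B : Set ℤ := ⋃ s ∈ l.toFinset, (bad S i s (w s) ∪ bad S i (-s) (-(w s)))
  have hB : m B = 0 := by
    apply le_antisymm _ (m_nonneg _)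
    refine (m_biUnion_le _ _).trans ?_
    apply le_of_eq
    apply Finset.sum_eq_zero
    intro s hs
    have hs' := hl s (List.mem_toFinset.mp hs)
    obtain ⟨h1, h2⟩ := hw s hs'
    have b1 := m_bad hS hs' h1 h2
    have h3 : -s - -(w s) ∈ S (i + 1) := by
      have := neg' hS h2
      have e : -s - -(w s) = -(s - w s) := by ring
      rw [e]; exact this
    have b2 := m_bad hS (neg' hS hs') (neg' hS h1) h3
    have := m_union_le (bad S i s (w s)) (bad S i (-s) (-(w s)))
    have := m_nonneg (bad S i s (w s) ∪ bad S i (-s) (-(w s)))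
    rw [hi] at b1 b2
    linarith
  refine ⟨B, 40 * R + 3 * R * l.length + 40, by positivity, hB, ?_⟩
  intro x0 L' hL' hgood
  refine residue_class (p := fun x => x ∈ S i) (D := S (i + 1)) (fun d hd => neg' hS hd)
    (fun d hd x hx => diff_avoid hS hd hx) w (x0 := x0)
    (L := L' + (40 * R + 3 * R * l.length + 40)) (R := R) (by positivity) l hsum ?_ hL' (by omega)
  intro s hs
  have hs' := hl s hs
  obtain ⟨h1, h2⟩ := hw s hs'
  have hsF := List.mem_toFinset.mpr hs
  obtain ⟨r1, r2⟩ := hR s hsF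
  refine ⟨hs', h1, h2, by rw [abs_le]; omega, by rw [abs_le]; omega, ?_, ?_⟩
  · intro x hx
    by_contra hcon
    push Not at hcon
    apply hgood x hx
    refine Set.mem_iUnion₂.mpr ⟨s, hsF, Or.inl hcon⟩
  · intro x hx
    by_contra hcon
    push Not at hcon
    apply hgood x hx
    refine Set.mem_iUnion₂.mpr ⟨s, hsF, Or.inr ⟨hcon.1, ?_, ?_⟩⟩
    · rw [sub_neg_eq_add]; exact hcon.2.1
    · rw [sub_neg_eq_add]; exact hcon.2.2

lemma contradiction : False := by
  obtain ⟨i, hi, hi1⟩ := exists_adjacent hS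
  obtain ⟨B, K, hK, hB, hloc⟩ := local_structure hS i hi
  obtain ⟨B', K', hK', hB', hloc'⟩ := local_structure hS (i + 1) hi1
  obtain ⟨n, hn, hn3⟩ := exists_not_dvd hS i
  have hBB : m (B ∪ B') = 0 := by
    apply le_antisymm _ (m_nonneg _)
    have := m_union_le B B'
    linarith
  set L' : ℤ := |n| + 5 with hL'
  have hn0 := abs_nonneg n
  obtain ⟨x0, hx0⟩ := exists_long_interval (B ∪ B') hBB (L' + K + K').toNat
  have hx0' : ∀ x, |x - x0| ≤ L' + K + K' → x ∉ B ∪ B' := by
    intro x hx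
    apply hx0 x
    have : ((L' + K + K').toNat : ℤ) = L' + K + K' := Int.toNat_of_nonneg (by omega)
    rw [this]; exact hx
  obtain ⟨P1, C1⟩ := hloc x0 L' (by omega) (fun x hx h => hx0' x (by omega) (Or.inl h))
  obtain ⟨P2, C2⟩ := hloc' x0 L' (by omega) (fun x hx h => hx0' x (by omega) (Or.inr h))
  obtain ⟨a, ha0, ha2, ha⟩ : ∃ a, 0 ≤ a - x0 ∧ a - x0 ≤ 2 ∧ a ∈ S i := by
    rcases C1 with h | h | h
    · exact ⟨_, by omega, by omega, h⟩
    · exact ⟨_, by omega, by omega, h⟩
    · exact ⟨_, by omega, by omega, h⟩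
  obtain ⟨b, hb0, hb2, hb⟩ : ∃ b, 0 ≤ b - x0 ∧ b - x0 ≤ 2 ∧ b ∈ S (i + 1) := by
    rcases C2 with h | h | h
    · exact ⟨_, by omega, by omega, h⟩
    · exact ⟨_, by omega, by omega, h⟩
    · exact ⟨_, by omega, by omega, h⟩
  have hab : a ≠ b := by
    rintro rfl
    exact ne01 i (colour_eq hS ha hb)
  obtain ⟨n', hn', hn'b, hn'3⟩ : ∃ n' ∈ S i, |n'| = |n| ∧ (3:ℤ) ∣ a + n' - b := by
    by_cases h : (3:ℤ) ∣ a + n - b
    · exact ⟨n, hn, rfl, h⟩
    · refine ⟨-n, neg' hS hn, abs_neg n, ?_⟩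
      have h1 : n % 3 = 1 ∨ n % 3 = 2 := by omega
      have h2 : a - b = 1 ∨ a - b = -1 ∨ a - b = 2 ∨ a - b = -2 := by omega
      rcases h1 with h1 | h1 <;> rcases h2 with h2 | h2 | h2 | h2 <;> omega
  have hmem : a + n' ∈ S (i + 1) := by
    refine (P2 b (a + n') ?_ ?_ hn'3).mp hb
    · rw [abs_le]; constructor <;> omega
    · have h1 := le_abs_self n'
      have h2 := neg_abs_le n'
      rw [abs_le]; constructor <;> omega
  exact sum_avoid hS ha hn' hmem

end Final

/-- **Main theorem (Q2).** The relation algebra `A_5([i,i,i+1])` has no group representation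
over `ℤ`: there is no partition of `ℤ ∖ {0}` into symmetric sets `S_0, ..., S_4` which yields a
representation. -/
theorem result : ¬ ∃ S : ZMod 5 → Set ℤ, IsGroupRepresentation S := by
  rintro ⟨S, hS⟩
  exact contradiction hS

end Pool.Agent.Results.MP_ef816a_al.NoRepresentationOverInt
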